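import Pool.Agent.helper53.AU.Asm
import Pool.Agent.helper53.AU.SpecTop

/-!
# MP_97532f_ag, Q2: the polynomial `8 T` is admissible for `p = 3`

`mu 3 g` is the supremum (in `ℕ∞`) of the numbers of automorphisms of the curves of genus `g` over the
algebraic closure of the field with three elements; curves are given by their function fields
(definitions in `Pool/Agent/helper53/AU/Defs.lean`).
-/

namespace Pool.Agent.Results.MP_97532f_ag.AdmissibleEightT

open Pool.Agent.helper53.AU

/-- In characteristic 3 every genus `g ≥ 2` has a curve with at least `8 g` automorphisms, for infinitely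
many `g` the maximum is exactly `8 g`; so `8 T` is admissible for `p = 3`, and it is not `8 (T + 1)`. -/
theorem result :
    (∀ g : ℕ, 2 ≤ g → ((8 * g : ℕ) : ℕ∞) ≤ mu 3 g) ∧
    {g : ℕ | 2 ≤ g ∧ mu 3 g = ((8 * g : ℕ) : ℕ∞)}.Infinite ∧
    Admissible 3 (8 * Polynomial.X) ∧
    (8 * Polynomial.X : Polynomial ℚ) ≠ 8 * (Polynomial.X + 1) :=
  final_of Asm.a53_GRP Asm.a53_GEO Asm.a53_FIN Asm.a53_LOW Asm.a53_NT

end Pool.Agent.Results.MP_97532f_ag.AdmissibleEightT
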